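import Pool.Agent.P.MP_91e9d9_gt.Main

open Filter Topology
open Pool.Agent.P.MP_91e9d9_gt

namespace Pool.Agent.Results.MP_91e9d9_gt.Counterexample

/-- The Poisson bracket conjecture fails on the standard torus of every dimension 2n at least 4:
there are finite open covers by displaceable sets, with subordinate partitions of unity, whose
Poisson bracket invariant and displacement energy both tend to zero. -/
theorem result (n : ℕ) (hn : 2 ≤ n) :
    ∃ (N : ℕ → ℕ) (U : ∀ k, Fin (N k) → Set (M n)) (F : ∀ k, Fin (N k) → M n → ℝ),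
      (∀ k, IsDisplaceableCover (U k)) ∧
      (∀ k, Subordinate (F k) (U k) ∧ ∀ m, ∑ i, F k i m = 1) ∧
      Tendsto (fun k => pbColl (F k)) atTop (𝓝 0) ∧
      Tendsto (fun k => coverEnergy (U k)) atTop (𝓝 0) ∧
      Tendsto (fun k => pbCover (U k) * coverEnergy (U k)) atTop (𝓝 0) :=
  main hn

end Pool.Agent.Results.MP_91e9d9_gt.Counterexample
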